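import Pool.Agent.DiagCoinv.Molien

set_option autoImplicit false

namespace Pool.Agent.Results.MP_c0e2a0_co.CharacterForm

open MvPolynomial Equiv

noncomputable section

variable {k n : ℕ}

/-- The permutation `σ` of the columns acting on `ℂ[X]`, `X = (x_{ij})`, `i < k`, `j < n`. -/
def act (k : ℕ) {n : ℕ} (σ : Perm (Fin n)) :
    MvPolynomial (Fin k × Fin n) ℂ →ₐ[ℂ] MvPolynomial (Fin k × Fin n) ℂ :=
  rename fun x => (x.1, σ x.2)

/-- The ideal generated by the `S_n`-invariant polynomials with zero constant term. -/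
def I (k n : ℕ) : Ideal (MvPolynomial (Fin k × Fin n) ℂ) :=
  Ideal.span {p | (∀ σ : Perm (Fin n), act k σ p = p) ∧ coeff 0 p = 0}

theorem I_le (k : ℕ) {n : ℕ} (σ : Perm (Fin n)) : I k n ≤ (I k n).comap (act k σ) := by
  conv_lhs => rw [I]
  rw [Ideal.span_le]
  rintro p ⟨h1, h2⟩
  refine Ideal.subset_span ?_
  show (∀ τ : Perm (Fin n), act k τ (act k σ p) = act k σ p) ∧ coeff 0 (act k σ p) = 0
  rw [h1 σ]
  exact ⟨h1, h2⟩

/-- The diagonal coinvariant ring `R = ℂ[X]/I`. -/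
def R (k n : ℕ) : Type := MvPolynomial (Fin k × Fin n) ℂ ⧸ I k n

instance (k n : ℕ) : CommRing (R k n) := Ideal.Quotient.commRing (I k n)

instance (k n : ℕ) : Algebra ℂ (R k n) := Ideal.instAlgebraQuotient ℂ (I k n)

/-- The quotient map `ℂ[X] → R`. -/
def mkR (k n : ℕ) : MvPolynomial (Fin k × Fin n) ℂ →ₐ[ℂ] R k n := Ideal.Quotient.mkₐ ℂ (I k n)

/-- The permutation `σ` acting on `R`. -/
def actR (k : ℕ) {n : ℕ} (σ : Perm (Fin n)) : R k n →ₐ[ℂ] R k n :=
  Ideal.quotientMapₐ (I k n) (act k σ) (I_le k σ)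

theorem actR_mk (σ : Perm (Fin n)) (f : MvPolynomial (Fin k × Fin n) ℂ) :
    actR k σ (mkR k n f) = mkR k n (act k σ f) := rfl

/-- The part of multidegree `a` of `ℂ[X]`: degree `a i` in the variables of row `i`. -/
def part (n : ℕ) {k : ℕ} (a : Fin k → ℕ) : Submodule ℂ (MvPolynomial (Fin k × Fin n) ℂ) :=
  weightedHomogeneousSubmodule ℂ (fun x : Fin k × Fin n => (Pi.single x.1 1 : Fin k → ℕ)) a

/-- The part `R_a` of multidegree `a` of `R`. -/
def partR (n : ℕ) {k : ℕ} (a : Fin k → ℕ) : Submodule ℂ (R k n) :=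
  (part n a).map (mkR k n).toLinearMap

theorem act_mem (σ : Perm (Fin n)) (a : Fin k → ℕ) : ∀ f ∈ part n a, act k σ f ∈ part n a :=
  fun _ hf => Pool.Agent.DiagCoinv.ren_mem_Dg σ hf

theorem actR_mem (σ : Perm (Fin n)) (a : Fin k → ℕ) :
    ∀ f ∈ partR n a, (actR k σ).toLinearMap f ∈ partR n a := by
  rintro _ ⟨f, hf, rfl⟩
  exact ⟨act k σ f, act_mem σ a f hf, rfl⟩

/-- `R_a` as a vector space. -/
def RP (n : ℕ) {k : ℕ} (a : Fin k → ℕ) : Type := partR n a

instance (n : ℕ) {k : ℕ} (a : Fin k → ℕ) : AddCommGroup (RP n a) :=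
  Submodule.addCommGroup (partR n a)

instance (n : ℕ) {k : ℕ} (a : Fin k → ℕ) : Module ℂ (RP n a) := Submodule.module (partR n a)

/-- The permutation `σ` acting on `R_a`. -/
def actP (σ : Perm (Fin n)) (a : Fin k → ℕ) : RP n a →ₗ[ℂ] RP n a :=
  (actR k σ).toLinearMap.restrict (actR_mem σ a)

/-- The coefficient of `q^a` in `F_n^(k)`, as a class function: the character of the `S_n`-module
`R_a` at `σ`. -/
def F (σ : Perm (Fin n)) (a : Fin k → ℕ) : ℂ :=
  LinearMap.trace ℂ (RP n a) (actP σ a)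

/-- The set of cycles of `σ`, fixed points included. -/
abbrev Cycles (σ : Perm (Fin n)) : Type := Quotient (Perm.SameCycle.setoid σ)

/-- The length of a cycle. -/
def length (σ : Perm (Fin n)) (c : Cycles σ) : ℕ :=
  Nat.card {j : Fin n // (Quotient.mk _ j : Cycles σ) = c}

/-- `p_μ[P_k]` for the cycle type `μ` of `σ`: the product over the cycles `c` of `σ` of
`P_k(q_1^m, …, q_k^m) = ∏_i 1/(1 - q_i^m)`, `m` the length of `c`. -/
def pP (k : ℕ) {n : ℕ} (σ : Perm (Fin n)) : MvPowerSeries (Fin k) ℂ :=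
  ∏ᶠ c : Cycles σ, ∏ i : Fin k, (1 - MvPowerSeries.X i ^ length σ c)⁻¹

/-- `h_n[P_k]`. -/
def hP (k n : ℕ) : MvPowerSeries (Fin k) ℂ :=
  (n.factorial : ℂ)⁻¹ • ∑ τ : Perm (Fin n), pP k τ

/-- `G_n^(k) = h_n[P_k z] / h_n[P_k]` as a class function: its value at `σ`. -/
def G (k : ℕ) {n : ℕ} (σ : Perm (Fin n)) : MvPowerSeries (Fin k) ℂ :=
  pP k σ * (hP k n)⁻¹

/-! ### proofs -/

open Pool.Agent.DiagCoinv (Dg W Fx hs ts DV stable_Dg stable_DV allc IL ren cp DC CS)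

theorem length_eq (σ : Perm (Fin n)) (c : Cycles σ) :
    length σ c = Pool.Agent.DiagCoinv.clen σ c := by
  classical
  unfold length Pool.Agent.DiagCoinv.clen
  rw [Nat.card_eq_fintype_card, Fintype.card_subtype]

theorem pP_eq (σ : Perm (Fin n)) : pP k σ = cp k σ := by
  classical
  unfold pP cp
  rw [finprod_eq_prod_of_fintype]
  simp only [length_eq]

theorem coeff_pP (σ : Perm (Fin n)) (a : Fin k →₀ ℕ) :
    MvPowerSeries.coeff a (pP k σ) = ts σ (Dg n ⇑a) (stable_Dg σ ⇑a) := by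
  rw [pP_eq, ← Pool.Agent.DiagCoinv.CS_empty, Pool.Agent.DiagCoinv.coeff_CS,
    Pool.Agent.DiagCoinv.hs_empty]

theorem mem_iff {a : Fin k → ℕ} (ha : ∑ i, a i ≤ n) {f : MvPolynomial (Fin k × Fin n) ℂ}
    (hf : f ∈ Dg n a) : f ∈ I k n ↔ f ∈ DV n (allc k n) a := by
  constructor
  · intro h
    refine ⟨hf, ?_⟩
    have := Pool.Agent.DiagCoinv.wc_mem_V_of_Vinf ha (Pool.Agent.DiagCoinv.IL_le_Vinf h)
    rwa [Pool.Agent.DiagCoinv.wc_self hf] at this
  · intro h
    exact Pool.Agent.DiagCoinv.V_le_IL h.2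

theorem F_eq (σ : Perm (Fin n)) (a : Fin k → ℕ) (ha : ∑ i, a i ≤ n) :
    F σ a = hs σ (allc k n) a := by
  let q0 : Dg n a →ₗ[ℂ] partR n a :=
    { toFun := fun f => ⟨mkR k n f.1, ⟨f.1, f.2, rfl⟩⟩
      map_add' := fun x y => Subtype.ext (by simp)
      map_smul' := fun r x => Subtype.ext (by simp) }
  let q : Dg n a →ₗ[ℂ] RP n a := q0
  have hq : Function.Surjective q := by
    rintro ⟨_, ⟨f, hf, rfl⟩⟩
    exact ⟨⟨f, hf⟩, rfl⟩
  have : FiniteDimensional ℂ (RP n a) := Module.Finite.of_surjective q hq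
  let i : DV n (allc k n) a →ₗ[ℂ] Dg n a := Submodule.inclusion inf_le_left
  have key := Pool.Agent.DiagCoinv.trace_exact i q (Submodule.inclusion_injective _) hq ?_
    ((ren k σ).toLinearMap.restrict (stable_DV σ (allc k n) a))
    ((ren k σ).toLinearMap.restrict (stable_Dg σ a))
    (actP σ a) (fun _ => rfl) (fun _ => rfl)
  · unfold F hs ts
    rw [key]
    ring
  · rintro ⟨f, hf⟩
    have h1 : q ⟨f, hf⟩ = 0 ↔ f ∈ I k n := by
      have h2 : q0 ⟨f, hf⟩ = 0 ↔ f ∈ I k n := by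
        rw [← Submodule.coe_eq_zero]
        exact Ideal.Quotient.eq_zero_iff_mem
      exact h2
    rw [h1, mem_iff ha hf]
    constructor
    · intro h
      exact ⟨⟨f, h⟩, rfl⟩
    · rintro ⟨x, hx⟩
      have h2 := congrArg Subtype.val hx
      have h3 : x.1 = f := h2
      rw [← h3]
      exact x.2

theorem coeff_hP (a : Fin k →₀ ℕ) :
    MvPowerSeries.coeff a (hP k n) =
      (Module.finrank ℂ (W (⊤ : Subgroup (Perm (Fin n))) (⇑a : Fin k → ℕ)) : ℂ) := by
  unfold hP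
  rw [MvPowerSeries.coeff_smul, map_sum]
  simp only [coeff_pP]
  have hfac : (n.factorial : ℂ) ≠ 0 := by exact_mod_cast n.factorial_ne_zero
  set f : Dg n (⇑a : Fin k → ℕ) →ₗ[ℂ] Dg n (⇑a : Fin k → ℕ) :=
    (n.factorial : ℂ)⁻¹ • ∑ τ : Perm (Fin n), (ren k τ).toLinearMap.restrict (stable_Dg τ ⇑a)
    with hf
  have hfv : ∀ x, (f x).1 = (n.factorial : ℂ)⁻¹ • ∑ τ : Perm (Fin n), ren k τ x.1 := by
    intro x
    rw [hf, LinearMap.smul_apply, LinearMap.sum_apply, Submodule.coe_smul,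
      Submodule.coe_sum]
    rfl
  obtain ⟨p, hp⟩ : ∃ p : Submodule ℂ (Dg n (⇑a : Fin k → ℕ)), p =
      Submodule.comap (Dg n (⇑a : Fin k → ℕ)).subtype (Fx k (⊤ : Subgroup (Perm (Fin n)))) :=
    ⟨_, rfl⟩
  have hproj : LinearMap.IsProj p f := by
    constructor
    · intro x
      rw [hp, Submodule.mem_comap, Submodule.subtype_apply, Pool.Agent.DiagCoinv.mem_Fx]
      intro σ _
      rw [hfv, map_smul, map_sum]
      congr 1
      simp only [Pool.Agent.DiagCoinv.ren_mul]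
      exact Fintype.sum_equiv (Equiv.mulLeft σ) _ _ fun τ => rfl
    · intro x hx
      rw [hp, Submodule.mem_comap, Submodule.subtype_apply, Pool.Agent.DiagCoinv.mem_Fx] at hx
      apply Subtype.ext
      rw [hfv, Finset.sum_congr rfl fun τ _ => hx τ (Subgroup.mem_top τ), Finset.sum_const,
        Finset.card_univ, Fintype.card_perm, Fintype.card_fin, ← Nat.cast_smul_eq_nsmul ℂ,
        smul_smul, inv_mul_cancel₀ hfac, one_smul]
  have i1 : Module.Free ℂ p := Module.Free.of_divisionRing ℂ p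
  have i2 : Module.Free ℂ (LinearMap.ker f) := Module.Free.of_divisionRing ℂ (LinearMap.ker f)
  have i3 : Module.Finite ℂ p := inferInstance
  have i4 : Module.Finite ℂ (LinearMap.ker f) := inferInstance
  have h1 := hproj.trace
  have h2 : LinearMap.trace ℂ _ f = (n.factorial : ℂ)⁻¹ • ∑ τ : Perm (Fin n),
      ts τ (Dg n (⇑a : Fin k → ℕ)) (stable_Dg τ ⇑a) := by
    rw [hf, map_smul, map_sum]
    rfl
  rw [← smul_eq_mul, ← h2, h1]
  congr 1
  rw [← Submodule.finrank_map_subtype_eq, hp, Submodule.map_comap_subtype]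
  rfl

theorem map_PS : MvPowerSeries.map (Int.castRingHom ℂ)
    (Pool.Agent.DiagCoinv.PS (k := k) (⊤ : Subgroup (Perm (Fin n))) ∅) = hP k n := by
  ext a
  rw [MvPowerSeries.coeff_map, Pool.Agent.DiagCoinv.coeff_PS, Pool.Agent.DiagCoinv.hf_empty,
    coeff_hP]
  simp

theorem map_DD (J : Finset (Fin k →₀ ℕ)) : MvPowerSeries.map (Int.castRingHom ℂ)
    (Pool.Agent.DiagCoinv.DD J) = DC J := by
  unfold Pool.Agent.DiagCoinv.DD Pool.Agent.DiagCoinv.DC
  rw [map_prod]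
  refine Finset.prod_congr rfl fun c _ => ?_
  rw [map_sub, map_one, MvPowerSeries.map_monomial, map_one]

theorem coeff_DC_hP (hn : 1 ≤ n) (a : Fin k →₀ ℕ) (ha : a.degree ≤ n) :
    MvPowerSeries.coeff a (DC (allc k n) * hP k n) = MvPowerSeries.coeff a 1 := by
  classical
  have h1 := Pool.Agent.DiagCoinv.coeff_PS_eq hn (⊤ : Subgroup (Perm (Fin n))) (allc k n)
    (fun c hc => Pool.Agent.DiagCoinv.ne_zero_of_mem_allc hc) a ha
  rw [Pool.Agent.DiagCoinv.coeff_PS, Pool.Agent.DiagCoinv.hf_top _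
    (by rwa [← Pool.Agent.DiagCoinv.degree_eq_sum])] at h1
  rw [← map_PS, ← map_DD, ← map_mul, MvPowerSeries.coeff_map, ← h1, MvPowerSeries.coeff_one]
  by_cases h0 : a = 0
  · subst h0
    simp
  · have : (⇑a : Fin k → ℕ) ≠ 0 := fun h => h0 (DFunLike.coe_injective h)
    rw [if_neg h0, if_neg this]
    simp

theorem coeff_mul_congrC {A A' B : MvPowerSeries (Fin k) ℂ} {N : ℕ}
    (h : ∀ b : Fin k →₀ ℕ, b.degree ≤ N → MvPowerSeries.coeff b A = MvPowerSeries.coeff b A')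
    (a : Fin k →₀ ℕ) (ha : a.degree ≤ N) :
    MvPowerSeries.coeff a (A * B) = MvPowerSeries.coeff a (A' * B) := by
  classical
  rw [MvPowerSeries.coeff_mul, MvPowerSeries.coeff_mul]
  refine Finset.sum_congr rfl fun p hp => ?_
  rw [h p.1]
  have := Finset.HasAntidiagonal.mem_antidiagonal.1 hp
  rw [← this, map_add] at ha
  omega

theorem F_eq_G (hn : 1 ≤ n) (σ : Perm (Fin n)) (a : Fin k →₀ ℕ) (ha : ∑ i, a i ≤ n) :
    F σ ⇑a = MvPowerSeries.coeff a (G k σ) := by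
  have hdeg : a.degree ≤ n := by rwa [Pool.Agent.DiagCoinv.degree_eq_sum]
  rw [F_eq σ _ ha, ← Pool.Agent.DiagCoinv.coeff_CS, Pool.Agent.DiagCoinv.coeff_CS_eq σ (allc k n)
    (fun c hc => Pool.Agent.DiagCoinv.ne_zero_of_mem_allc hc) a hdeg,
    Pool.Agent.DiagCoinv.CS_empty, ← pP_eq]
  have hc0 : MvPowerSeries.constantCoeff (hP k n) ≠ 0 := by
    have h1 := coeff_DC_hP (k := k) hn 0 (by simp)
    rw [MvPowerSeries.coeff_zero_eq_constantCoeff_apply, map_mul,
      MvPowerSeries.coeff_zero_eq_constantCoeff_apply, map_one] at h1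
    intro h0
    rw [h0, mul_zero] at h1
    exact zero_ne_one h1
  have hinv : hP k n * (hP k n)⁻¹ = 1 := MvPowerSeries.mul_inv_cancel _ hc0
  have e1 : DC (allc k n) * pP k σ = (DC (allc k n) * hP k n) * ((hP k n)⁻¹ * pP k σ) := by
    rw [mul_assoc, ← mul_assoc (hP k n), hinv, one_mul]
  rw [e1, coeff_mul_congrC (fun b hb => coeff_DC_hP hn b hb) a hdeg, one_mul, mul_comm]
  rfl

/-- The series `F_n^(k)` and `G_n^(k)` agree in all `q`-degrees `≤ n`. -/
theorem result (n k : ℕ) (hn : 1 ≤ n) (_hk : 1 ≤ k) (σ : Perm (Fin n)) (a : Fin k →₀ ℕ)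
    (ha : ∑ i, a i ≤ n) : F σ ⇑a = MvPowerSeries.coeff a (G k σ) :=
  F_eq_G hn σ a ha

end

end Pool.Agent.Results.MP_c0e2a0_co.CharacterForm
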